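import Mathlib
import Pool.Agent.H8.GG.Defs
import Pool.Agent.H8.GG.SepProd

set_option autoImplicit false

namespace Pool.Agent.Results.MP_0f8365_gt.CountProd

open Pool.Agent.H8.GG

universe u v

theorem result (X : Type u) (Y : Type v) [TopologicalSpace X] [T35Space X] [TopologicalSpace Y]
    [T35Space Y] (hX : Grothendieck X) :
    (Countable Y → Grothendieck (X × Y) ∧ WeaklyGrothendieck (X × Y)) ∧
    (TopologicalSpace.SeparableSpace Y → Grothendieck (X × Y) ∧ WeaklyGrothendieck (X × Y)) :=
  ⟨fun _ => ⟨sep_prod X Y hX, weakly_of_grothendieck (sep_prod X Y hX)⟩,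
    fun _ => ⟨sep_prod X Y hX, weakly_of_grothendieck (sep_prod X Y hX)⟩⟩

end Pool.Agent.Results.MP_0f8365_gt.CountProd
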